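import Mathlib
import Pool.Agent.Work.MP_b0497c_an.Damp.Ric
import Pool.Agent.Work.MP_b0497c_an.Disp.Core
import Pool.Agent.Work.MP_b0497c_an.Disp.Conv
import Pool.Agent.Work.MP_b0497c_an.Disp.Basic
import Pool.Agent.Work.MP_b0497c_an.Disp.Energy
import Pool.Agent.Work.MP_b0497c_an.Disp.Unique
import Pool.Agent.Work.MP_b0497c_an.Disp.Symm
import Pool.Agent.Work.MP_b0497c_an.Disp.HatSym
import Pool.Agent.Work.MP_b0497c_an.Disp.Ode
import Pool.Agent.Work.MP_b0497c_an.Disp.Datum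
import Pool.Agent.Work.MP_b0497c_an.Disp.Hat
import Pool.Agent.Work.MP_b0497c_an.Disp.Eig
import Pool.Agent.Work.MP_b0497c_an.Disp.Kn
import Pool.Agent.Work.MP_b0497c_an.Disp.Closed
import Pool.Agent.Work.MP_b0497c_an.Disp.Res
import Pool.Agent.Work.MP_b0497c_an.Disp.Lin
import Pool.Agent.Work.MP_b0497c_an.Disp.Axis
import Pool.Agent.Work.MP_b0497c_an.Disp.Parts
import Pool.Agent.Work.MP_b0497c_an.Disp.Sum
import Pool.Agent.Work.MP_b0497c_an.Disp.Quad
import Pool.Agent.Work.MP_b0497c_an.Disp.Blow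
import Pool.Agent.Work.MP_b0497c_an.Disp.Coeff
import Pool.Agent.Work.MP_b0497c_an.Disp.Build
import Pool.Agent.Work.MP_b0497c_an.Disp.Max
import Pool.Agent.Work.MP_b0497c_an.Diff.Core
import Pool.Agent.Work.MP_b0497c_an.Diff.GLife
import Pool.Agent.Work.MP_b0497c_an.Diff.Symbol
import Pool.Agent.Work.MP_b0497c_an.Diff.Meas
import Pool.Agent.Work.MP_b0497c_an.Diff.Sum
import Pool.Agent.Work.MP_b0497c_an.Diff.Plane
import Pool.Agent.Work.MP_b0497c_an.Diff.Frame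
import Pool.Agent.Work.MP_b0497c_an.Diff.Stmts2
import Pool.Agent.Work.MP_b0497c_an.Diff.PreFrame
import Pool.Agent.Work.MP_b0497c_an.Diff.Big
import Pool.Agent.Work.MP_b0497c_an.Diff.Zero
import Pool.Agent.Work.MP_b0497c_an.Diff.Chain
import Pool.Agent.Work.MP_b0497c_an.Diff.Poly

set_option autoImplicit false

/-!
Finite time blow-up for the Euler nonlinearity with an energy conserving linear differential
operator with constant coefficients.
-/

namespace Pool.Agent.Results.MP_b0497c_an.DispersiveOperator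

open Set MeasureTheory RealInnerProductSpace Pool.Agent.Work.MP_b0497c_an
open Pool.Agent.Work.MP_b0497c_an.Dec (cube phase vec)
open Pool.Agent.Work.MP_b0497c_an.Disp (rx X)
open Pool.Agent.Work.MP_b0497c_an.Diff (dsym)

/-- The divergence of `f` at `x`. -/
noncomputable def divg (f : EuclideanSpace ℝ (Fin 3) → EuclideanSpace ℝ (Fin 3))
    (x : EuclideanSpace ℝ (Fin 3)) : ℝ :=
  LinearMap.trace ℝ (EuclideanSpace ℝ (Fin 3)) (fderiv ℝ f x)

/-- `∂ₜ u + (u · ∇) u` at `(t, x)`; the time derivative is one-sided at `t = 0`. -/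
noncomputable def accel (T : ℝ) (u : ℝ → EuclideanSpace ℝ (Fin 3) → EuclideanSpace ℝ (Fin 3))
    (t : ℝ) (x : EuclideanSpace ℝ (Fin 3)) : EuclideanSpace ℝ (Fin 3) :=
  derivWithin (fun s => u s x) (Ico 0 T) t + fderiv ℝ (u t) x (u t x)

/-- The integral of `cos (k · x) (f x · c)` over the torus. -/
noncomputable def cosInt (k : Fin 3 → ℤ) (c : EuclideanSpace ℝ (Fin 3))
    (f : EuclideanSpace ℝ (Fin 3) → EuclideanSpace ℝ (Fin 3)) : ℝ :=
  ∫ x in cube, Real.cos (phase k x) * ⟪f x, c⟫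

/-- The integral of `sin (k · x) (f x · c)` over the torus. -/
noncomputable def sinInt (k : Fin 3 → ℤ) (c : EuclideanSpace ℝ (Fin 3))
    (f : EuclideanSpace ℝ (Fin 3) → EuclideanSpace ℝ (Fin 3)) : ℝ :=
  ∫ x in cube, Real.sin (phase k x) * ⟪f x, c⟫

/-- `u` is a classical solution on `[0, T)` of the equations
`∂ₜ u + (u · ∇) u + ∇ p + L u = 0`, `div u = 0` on the torus, where `L` has the symbol `i B`, that
is, the Fourier coefficient of `L u` at `k` is `i B k` applied to the one of `u`: `u` is `C¹` in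
`(t, x)`, `u t` is periodic and divergence free, and the equation holds against all divergence
free modes `cos (k · x) c` and `sin (k · x) c`, `k · c = 0`. (If `B = 0` this is the Euler
equation. If the entries of `B` are polynomials in `k` then `L` is a differential operator.) -/
structure IsSolution (B : (Fin 3 → ℤ) → EuclideanSpace ℝ (Fin 3) → EuclideanSpace ℝ (Fin 3))
    (T : ℝ) (u : ℝ → EuclideanSpace ℝ (Fin 3) → EuclideanSpace ℝ (Fin 3)) : Prop where
  contDiff_u : ContDiffOn ℝ 1 (fun z : ℝ × EuclideanSpace ℝ (Fin 3) => u z.1 z.2)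
    (Ico 0 T ×ˢ univ)
  periodic : ∀ t ∈ Ico 0 T, Periodic3 (u t)
  div_free : ∀ t ∈ Ico 0 T, ∀ x, divg (u t) x = 0
  cos_eq : ∀ t ∈ Ico 0 T, ∀ (k : Fin 3 → ℤ) (c : EuclideanSpace ℝ (Fin 3)), ⟪vec k, c⟫ = 0 →
    cosInt k c (accel T u t) + sinInt k (B k c) (u t) = 0
  sin_eq : ∀ t ∈ Ico 0 T, ∀ (k : Fin 3 → ℤ) (c : EuclideanSpace ℝ (Fin 3)), ⟪vec k, c⟫ = 0 →
    sinInt k c (accel T u t) - cosInt k (B k c) (u t) = 0

/-- `v` is a divergence free trigonometric polynomial which commutes with `rx`. -/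
structure IsDatum (v : EuclideanSpace ℝ (Fin 3) → EuclideanSpace ℝ (Fin 3)) : Prop where
  trig : ∃ (F : Finset (Fin 3 → ℤ)) (b c : (Fin 3 → ℤ) → EuclideanSpace ℝ (Fin 3)), ∀ x,
    v x = ∑ k ∈ F, (Real.cos (phase k x) • b k + Real.sin (phase k x) • c k)
  symm : ∀ x : EuclideanSpace ℝ (Fin 3), v (rx x) = rx (v x)
  div_free : ∀ x, divg v x = 0

/-- Twice the kinetic energy of `f`. -/
noncomputable def energy (f : EuclideanSpace ℝ (Fin 3) → EuclideanSpace ℝ (Fin 3)) : ℝ :=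
  ∫ x in cube, ‖f x‖ ^ 2

/-- `v` has a nonzero Fourier coefficient on the chain `X`. -/
def Charged (v : EuclideanSpace ℝ (Fin 3) → EuclideanSpace ℝ (Fin 3)) : Prop :=
  ∃ k ∈ X, (∫ x in cube, Real.cos (phase k x) • v x ≠ 0) ∨
    ∫ x in cube, Real.sin (phase k x) • v x ≠ 0

/-- `u` is a classical solution on `[0, T)` with the symbol `Ω • dsym θ` and the datum `v`. -/
def Solves (Ω : ℝ) (θ : Fin 2 × Fin 2 × Fin 2 × Fin 2 → ℝ) (T : ℝ)
    (v : EuclideanSpace ℝ (Fin 3) → EuclideanSpace ℝ (Fin 3))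
    (u : ℝ → EuclideanSpace ℝ (Fin 3) → EuclideanSpace ℝ (Fin 3)) : Prop :=
  IsSolution (fun k c => Ω • dsym θ k c) T u ∧ ∀ x, u 0 x = v x

/-- The matrix `B` consists of odd polynomials of degree at most `d` and is symmetric. -/
def IsDifferential (d : ℕ)
    (B : (Fin 3 → ℤ) → EuclideanSpace ℝ (Fin 3) → EuclideanSpace ℝ (Fin 3)) : Prop :=
  ∃ Q : Fin 3 → Fin 3 → MvPolynomial (Fin 3) ℝ,
    (∀ i j, Q i j = Q j i ∧ (Q i j).totalDegree ≤ d ∧
      ∀ x, MvPolynomial.eval (-x) (Q i j) = -MvPolynomial.eval x (Q i j)) ∧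
    ∀ (k : Fin 3 → ℤ) (c : EuclideanSpace ℝ (Fin 3)) (i : Fin 3),
      B k c i = ∑ j, MvPolynomial.eval (fun a => (k a : ℝ)) (Q i j) * c j

theorem solution_iff (B : (Fin 3 → ℤ) → EuclideanSpace ℝ (Fin 3) → EuclideanSpace ℝ (Fin 3))
    (T : ℝ) (u : ℝ → EuclideanSpace ℝ (Fin 3) → EuclideanSpace ℝ (Fin 3)) :
    IsSolution B T u ↔ Disp.IsSolution B T u :=
  ⟨fun h => ⟨h.1, h.2, h.3, h.4, h.5⟩, fun h => ⟨h.1, h.2, h.3, h.4, h.5⟩⟩

/-- **Finite time blow-up for the full Euler nonlinearity with an energy conserving linear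
differential operator.** -/
theorem result :
    (∀ θ, IsDifferential 31 (dsym θ) ∧ ∀ (Ω T : ℝ)
      (v : EuclideanSpace ℝ (Fin 3) → EuclideanSpace ℝ (Fin 3))
      (u : ℝ → EuclideanSpace ℝ (Fin 3) → EuclideanSpace ℝ (Fin 3)),
      Solves Ω θ T v u → ∀ t ∈ Ico 0 T, energy (u t) = energy v) ∧
    ∀ᵐ θ : Fin 2 × Fin 2 × Fin 2 × Fin 2 → ℝ,
      ∀ v : EuclideanSpace ℝ (Fin 3) → EuclideanSpace ℝ (Fin 3), IsDatum v → Charged v →
      ∃ c : ℝ, 0 < c ∧ ∀ A Ω : ℝ, 0 < A → A ≤ c * Ω →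
        (∀ (T : ℝ) (u u' : ℝ → EuclideanSpace ℝ (Fin 3) → EuclideanSpace ℝ (Fin 3)),
          Solves Ω θ T (A • v) u → Solves Ω θ T (A • v) u' → ∀ t ∈ Ico 0 T, u t = u' t) ∧
        ∃ Ts : ℝ, 0 < Ts ∧ c * A * Ts ≤ 1 ∧ ∀ T, 0 < T →
          ((∃ u, Solves Ω θ T (A • v) u) ↔ T ≤ Ts) := by
  have hLin := Disp.claimLin Disp.claimEig
  have hHat := Disp.claimHat Disp.claimBasic Disp.claimEnergy Disp.claimSymm Disp.claimHatSym
    (Disp.claimOde Disp.claimConv)
  have hLife := Diff.GLife Disp.claimKn Disp.claimEig hLin (Disp.claimRes Disp.claimKn hLin)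
    Disp.claimAxis Disp.claimParts Disp.claimSum (Disp.claimBlow Disp.claimQuad Damp.claimRic)
  have hFrame := Diff.claimFrame Diff.claimPreFrame Diff.claimMeas Diff.claimSum Diff.claimBig Diff.claimZero Diff.claimChain Diff.claimPlane
  refine ⟨fun θ => ⟨Diff.claimPoly θ, fun Ω T v u hu t ht => ?_⟩, ?_⟩
  · rw [energy, Disp.claimEnergy _ T u (Diff.claimSymbol θ Ω) ((solution_iff _ _ _).1 hu.1) t ht]
    simp only [hu.2, energy]
  · have hmain := Diff.main_of Disp.claimBasic Disp.claimHatSym Disp.claimDatum Disp.claimKn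
      hLin hHat hLife Disp.claimUnique Disp.claimCoeff (Disp.claimBuild Disp.claimConv)
      (Disp.claimMax Disp.claimUnique) Diff.claimSymbol hFrame
    unfold Diff.ClaimMain at hmain
    filter_upwards [hmain] with θ h v hv hX
    obtain ⟨c, hc, h⟩ := h v ⟨hv.1, hv.2, hv.3⟩ hX
    refine ⟨c, hc, fun A Ω hA hAΩ => ?_⟩
    obtain ⟨h1, Ts, hTs, h2, h3⟩ := h A Ω hA hAΩ
    refine ⟨fun T u u' hu hu' => h1 T u u' ((solution_iff _ _ _).1 hu.1)
      ((solution_iff _ _ _).1 hu'.1) hu.2 hu'.2, Ts, hTs, h2, fun T hT => ?_⟩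
    rw [← h3 T hT]
    simp only [Solves, solution_iff, Pi.smul_apply]

end Pool.Agent.Results.MP_b0497c_an.DispersiveOperator
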