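import Mathlib
import Pool.Agent.Work.MP_b0497c_an.Dec.Main

set_option autoImplicit false

namespace Pool.Agent.Results.MP_b0497c_an.SparseModeRemoval

open Set MeasureTheory
open Pool.Agent.Work.MP_b0497c_an (curl)
open Pool.Agent.Work.MP_b0497c_an.Dec (cube phase IsRestrictedSolution)
open scoped ContDiff

/-- Finite time blow-up for the Euler equations restricted to any set of modes between a chain
`X` with `O(log N)` modes up to `N` and a set `L` which misses only `O(log² N)` modes up to `N`. -/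
theorem result (M : ℕ) : ∃ X L : Set (Fin 3 → ℤ), X ⊆ L ∧
    (∀ k : Fin 3 → ℤ, (∀ i, |k i| ≤ (M : ℤ)) → k ∈ L) ∧
    (∀ N : ℕ, {k : Fin 3 → ℤ | k ∈ X ∧ ∀ i, |k i| ≤ (N : ℤ)}.ncard
      ≤ 240 * (Nat.log 16 N + 1)) ∧
    (∀ N : ℕ, {k : Fin 3 → ℤ | k ∉ L ∧ ∀ i, |k i| ≤ (N : ℤ)}.ncard
      ≤ 57600 * (Nat.log 16 N + 1) ^ 2) ∧
    (∀ (σ : Equiv.Perm (Fin 3)) (s : Fin 3 → ℤˣ) (k : Fin 3 → ℤ),
      ((fun i => (s i : ℤ) * k (σ i)) ∈ X ↔ k ∈ X) ∧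
      ((fun i => (s i : ℤ) * k (σ i)) ∈ L ↔ k ∈ L)) ∧
    ∃ (T : ℝ) (u : ℝ → EuclideanSpace ℝ (Fin 3) → EuclideanSpace ℝ (Fin 3)), 0 < T ∧
      (∃ (s : Finset (Fin 3 → ℤ)) (A : (Fin 3 → ℤ) → EuclideanSpace ℝ (Fin 3)),
        ∀ x, u 0 x = ∑ k ∈ s, Real.sin (phase k x) • A k) ∧
      (∀ t ∈ Ico 0 T, ContDiff ℝ ∞ (u t)) ∧
      (∀ t ∈ Ico 0 T, ∫ x in cube, ‖u t x‖ ^ 2 = ∫ x in cube, ‖u 0 x‖ ^ 2) ∧
      ¬ IntegrableOn (fun t => Real.sqrt (∫ x in cube, ‖curl (u t) x‖ ^ 2)) (Ioo 0 T) ∧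
      ∀ Λ : Set (Fin 3 → ℤ), X ⊆ Λ → Λ ⊆ L → IsRestrictedSolution Λ T u ∧
        ∀ (T' : ℝ) (u' : ℝ → EuclideanSpace ℝ (Fin 3) → EuclideanSpace ℝ (Fin 3)),
          IsRestrictedSolution Λ T' u' → u' 0 = u 0 →
            T' ≤ T ∧ ∀ t ∈ Ico 0 T', u' t = u t :=
  Pool.Agent.Work.MP_b0497c_an.Dec.main M

end Pool.Agent.Results.MP_b0497c_an.SparseModeRemoval
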