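import Mathlib
import Pool.Agent.Work.MP_b0497c_an.Tri.Props

set_option autoImplicit false

namespace Pool.Agent.Results.MP_b0497c_an.TriadRemoval

open Set MeasureTheory
open Pool.Agent.Work.MP_b0497c_an (curl)
open Pool.Agent.Work.MP_b0497c_an.Dec (cube phase)
open Pool.Agent.Work.MP_b0497c_an.Tri (IsSparse IsSmall IsDeletedSolution)
open scoped ContDiff

/-- Finite time blow-up for the Euler equations on the torus, all Fourier modes kept, from which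
only `O(log² N)` of the triad interactions between the modes up to `N` are deleted. -/
theorem result (M : ℕ) (ε : ℝ) (hε : 0 < ε) :
    ∃ D : Set ((Fin 3 → ℤ) × (Fin 3 → ℤ) × (Fin 3 → ℤ)), IsSparse M D ∧ IsSmall ε D ∧
    ∃ (T : ℝ) (u : ℝ → EuclideanSpace ℝ (Fin 3) → EuclideanSpace ℝ (Fin 3)), 0 < T ∧
      IsDeletedSolution D T u ∧
      (∃ (s : Finset (Fin 3 → ℤ)) (A : (Fin 3 → ℤ) → EuclideanSpace ℝ (Fin 3)),
        ∀ x, u 0 x = ∑ k ∈ s, Real.sin (phase k x) • A k) ∧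
      (∀ t ∈ Ico 0 T, ContDiff ℝ ∞ (u t)) ∧
      (∀ t ∈ Ico 0 T, ∫ x in cube, ‖u t x‖ ^ 2 = ∫ x in cube, ‖u 0 x‖ ^ 2) ∧
      ¬ IntegrableOn (fun t => Real.sqrt (∫ x in cube, ‖curl (u t) x‖ ^ 2)) (Ioo 0 T) ∧
      ∀ (T' : ℝ) (u' : ℝ → EuclideanSpace ℝ (Fin 3) → EuclideanSpace ℝ (Fin 3)),
        IsDeletedSolution D T' u' → u' 0 = u 0 → T' ≤ T ∧ ∀ t ∈ Ico 0 T', u' t = u t :=
  Pool.Agent.Work.MP_b0497c_an.Tri.main_props M ε hε

end Pool.Agent.Results.MP_b0497c_an.TriadRemoval
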